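import Pool.Agent.Helper58.DH.Goals2

/-!
# Project DM (MP_06d934_gt): the flag manifolds of the families B, C, D at the level of matrices. Definitions.

`G = {g ∈ U(N) | gᵀ S g = S}` with a matrix `S` which is symmetric and unitary (then `G ≅ O(N)`) or skew and unitary (then
`G ≅ Sp(N/2)`), `𝔤` its Lie algebra. The coordinates of `ℂ^N` are in five blocks `V₁, V₁*, V₂, V₂*, W`, the number `i` is paired by
`S` with `bar i`. `K = U(V₁) × U(V₂) × G(W)`.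
-/

set_option autoImplicit false

namespace Pool.Agent.Helper58.DM

open Matrix Pool.Agent.Helper58.DH

/-- The dual block: `V₁ ↔ V₁*`, `V₂ ↔ V₂*`, `W` is fixed. -/
def bar5 : Fin 5 → Fin 5 := ![1, 0, 3, 2, 4]

/-- The data: the pairing `bar` of the coordinates, the signs `sg` (`S i (bar i) = sg i`), `η = 1` for the orthogonal and
`η = -1` for the symplectic case, and the block `bl i` of a coordinate. -/
structure Frame (I : Type) where
  bar : I → I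
  sg : I → ℝ
  η : ℝ
  bl : I → Fin 5
  bar_bar : ∀ i, bar (bar i) = i
  sg_sq : ∀ i, sg i * sg i = 1
  η_sq : η * η = 1
  sg_bar : ∀ i, sg (bar i) = η * sg i
  bl_bar : ∀ i, bl (bar i) = bar5 (bl i)

/-- `SO(2p+2q+m)/(U(p) × U(q) × SO(m))`: `S` is the sum of the hyperbolic forms of `V₁ ⊕ V₁*` and of `V₂ ⊕ V₂*` and of the unit
matrix on `W = ℂ^m`. -/
def FD (p q m : ℕ) : Frame ((Fin p ⊕ Fin p) ⊕ ((Fin q ⊕ Fin q) ⊕ Fin m)) where
  bar := Sum.map Sum.swap (Sum.map Sum.swap id)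
  sg := fun _ ↦ 1
  η := 1
  bl := Sum.elim (Sum.elim (fun _ ↦ 0) fun _ ↦ 1)
    (Sum.elim (Sum.elim (fun _ ↦ 2) fun _ ↦ 3) fun _ ↦ 4)
  bar_bar := by rintro ((i | i) | ((i | i) | i)) <;> rfl
  sg_sq := fun _ ↦ by norm_num
  η_sq := by norm_num
  sg_bar := fun _ ↦ by norm_num
  bl_bar := by rintro ((i | i) | ((i | i) | i)) <;> rfl

/-- `Sp(p+q+r)/(U(p) × U(q) × Sp(r))`: `S = (0, 1; -1, 0)` on `V₁ ⊕ V₁*`, on `V₂ ⊕ V₂*` and on `W = ℂ^r ⊕ ℂ^r`. -/
def FC (p q r : ℕ) : Frame ((Fin p ⊕ Fin p) ⊕ ((Fin q ⊕ Fin q) ⊕ (Fin r ⊕ Fin r))) where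
  bar := Sum.map Sum.swap (Sum.map Sum.swap Sum.swap)
  sg := Sum.elim (Sum.elim (fun _ ↦ 1) fun _ ↦ -1)
    (Sum.elim (Sum.elim (fun _ ↦ 1) fun _ ↦ -1) (Sum.elim (fun _ ↦ 1) fun _ ↦ -1))
  η := -1
  bl := Sum.elim (Sum.elim (fun _ ↦ 0) fun _ ↦ 1)
    (Sum.elim (Sum.elim (fun _ ↦ 2) fun _ ↦ 3) fun _ ↦ 4)
  bar_bar := by rintro ((i | i) | ((i | i) | (i | i))) <;> rfl
  sg_sq := by rintro ((i | i) | ((i | i) | (i | i))) <;> norm_num
  η_sq := by norm_num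
  sg_bar := by rintro ((i | i) | ((i | i) | (i | i))) <;> norm_num
  bl_bar := by rintro ((i | i) | ((i | i) | (i | i))) <;> rfl

/-- The class of an entry: `0, …, 5` for the T-roots `±(δ₁-δ₂), ±(δ₁+δ₂), ±2δ₁, ±2δ₂, ±δ₁, ±δ₂`. -/
def cls : Fin 5 → Fin 5 → Option (Fin 6) :=
  ![![none, some 2, some 0, some 1, some 4],
    ![some 2, none, some 1, some 0, some 4],
    ![some 0, some 1, none, some 3, some 5],
    ![some 1, some 0, some 3, none, some 5],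
    ![some 4, some 4, some 5, some 5, none]]

section

variable {I : Type} [Fintype I] [DecidableEq I] (F : Frame I)

/-- The matrix `S`. -/
def SS : Matrix I I ℂ := Matrix.of fun i j ↦ if j = F.bar i then (F.sg i : ℂ) else 0

/-- The Lie algebra `𝔤` of `G = {g | gᴴ g = 1, gᵀ S g = S}`. -/
def fg : Set (Matrix I I ℂ) := {X | Xᴴ = -X ∧ Xᵀ * SS F + SS F * X = 0}

/-- The Lie algebra `𝔨` of `K`: the block diagonal part of `𝔤`. -/
def fk : Set (Matrix I I ℂ) := {X | X ∈ fg F ∧ ∀ i j, F.bl i ≠ F.bl j → X i j = 0}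

/-- The number `k` in the Killing form `k tr(XY)` of `𝔤`: `N - 2` for `𝔰𝔬(N)`, `N + 2` for `𝔰𝔭(N/2)`. -/
def kk : ℝ := (Fintype.card I : ℝ) - 2 * F.η

/-- `B`, the negative of the Killing form of `𝔤`. -/
noncomputable def B (X Y : Matrix I I ℂ) : ℝ := -(kk F * (X * Y).trace.re)

/-- The `B`-orthogonal complement `𝔪` of `𝔨` in `𝔤`. -/
def fm : Set (Matrix I I ℂ) := {X | X ∈ fg F ∧ ∀ Y ∈ fk F, B F X Y = 0}

/-- The projection to `𝔪` along `𝔨`: the entries in the diagonal blocks are replaced by `0`. -/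
def prm (X : Matrix I I ℂ) : Matrix I I ℂ := fun i j ↦ if F.bl i = F.bl j then 0 else X i j

/-- The component in `𝔪_c`, `c = 0, …, 5`. -/
def comp (c : Fin 6) (X : Matrix I I ℂ) : Matrix I I ℂ := fun i j ↦
  if cls (F.bl i) (F.bl j) = some c then X i j else 0

/-- The inner product `g = ∑_c w_c B|𝔪_c` on `𝔪`. -/
noncomputable def gx (w : Fin 6 → ℝ) (X Y : Matrix I I ℂ) : ℝ :=
  ∑ c, w c * B F (comp F c X) (comp F c Y)

/-- The family `e` is an orthonormal basis of `𝔪` with the inner product `g`. -/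
structure IsONB {κ : Type} [Fintype κ] [DecidableEq κ] (w : Fin 6 → ℝ) (e : κ → Matrix I I ℂ) :
    Prop where
  mem : ∀ j, e j ∈ fm F
  orth : ∀ i j, gx F w (e i) (e j) = if i = j then 1 else 0
  span : ∀ X ∈ fm F, X ∈ Submodule.span ℝ (Set.range e)

/-- The Ricci curvature `Ric(X, X)` of the invariant metric given by `g`, computed with the
orthonormal basis `e` of `𝔪` (A. Besse, Einstein Manifolds, Corollary 7.38, `G` unimodular):
`Ric(X, X) = -1/2 ∑_j |[X, e_j]_𝔪|² - 1/2 Kill(X, X) + 1/4 ∑_{i,j} g([e_i, e_j]_𝔪, X)²`. -/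
noncomputable def Ric {κ : Type} [Fintype κ] (w : Fin 6 → ℝ) (e : κ → Matrix I I ℂ)
    (X : Matrix I I ℂ) : ℝ :=
  -(1 / 2) * ∑ j, gx F w (prm F ⁅X, e j⁆) (prm F ⁅X, e j⁆) + 1 / 2 * B F X X +
    1 / 4 * ∑ i, ∑ j, gx F w (prm F ⁅e i, e j⁆) X ^ 2

/-- The invariant metric given by `g` is Einstein with the constant `c`: `Ric = c g`. -/
def Einstein (c : ℝ) (w : Fin 6 → ℝ) : Prop :=
  ∀ (κ : Type) [Fintype κ] [DecidableEq κ] (e : κ → Matrix I I ℂ), IsONB F w e →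
    ∀ X ∈ fm F, Ric F w e X = c * gx F w X X

/-- `J` (restricted to `𝔪`) is an invariant complex structure on `G/K`: it commutes with the
isotropy representation and it is integrable. -/
structure IsComplexStructure (J : Matrix I I ℂ →ₗ[ℝ] Matrix I I ℂ) : Prop where
  mem : ∀ X ∈ fm F, J X ∈ fm F
  sq : ∀ X ∈ fm F, J (J X) = -X
  inv : ∀ Y ∈ fk F, ∀ X ∈ fm F, J ⁅Y, X⁆ = ⁅Y, J X⁆
  integrable : ∀ X ∈ fm F, ∀ Y ∈ fm F,
    prm F ⁅J X, J Y⁆ - prm F ⁅X, Y⁆ - J (prm F ⁅X, J Y⁆) - J (prm F ⁅J X, Y⁆) = 0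

/-- The invariant metric given by `g` is Kähler with respect to some invariant complex structure
`J`: `g` is hermitian, and the form `ω(X, Y) = g(J X, Y)` is closed. -/
def Kaehler (w : Fin 6 → ℝ) : Prop :=
  ∃ J : Matrix I I ℂ →ₗ[ℝ] Matrix I I ℂ, IsComplexStructure F J ∧
    (∀ X ∈ fm F, ∀ Y ∈ fm F, gx F w (J X) (J Y) = gx F w X Y) ∧
    ∀ X ∈ fm F, ∀ Y ∈ fm F, ∀ Z ∈ fm F, gx F w (J (prm F ⁅X, Y⁆)) Z +
      gx F w (J (prm F ⁅Y, Z⁆)) X + gx F w (J (prm F ⁅Z, X⁆)) Y = 0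

end

end Pool.Agent.Helper58.DM
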