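import Pool.Agent.Helper58.DM.Defs

/-!
# Project DM (MP_06d934_gt): goals. Every statement is a `def ... : Prop` with a complete proof in the docstring.

Notation in the proofs: `ī = F.bar i`, `σ_i = F.sg i`, `k = kk F`, `x_ij = xx F w i j`, `κ_ij = (x_ij)⁻¹` (zero if `i, j` are in the
same block).
-/

set_option autoImplicit false

namespace Pool.Agent.Helper58.DM

open Matrix Pool.Agent.Helper58.DH

section

variable {I : Type} [Fintype I] [DecidableEq I] (F : Frame I)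

/-- `X` is fixed by the involution defining `𝔤 ⊗ ℂ`. -/
def Th (X : Matrix I I ℂ) : Prop := ∀ i j, X (F.bar j) (F.bar i) = -((F.sg i * F.sg j : ℝ) : ℂ) * X i j

/-- The entries in the diagonal blocks are zero. -/
def Off (X : Matrix I I ℂ) : Prop := ∀ i j, F.bl i = F.bl j → X i j = 0

/-- The coefficient of the metric at the entry `i j`. -/
def xx (w : Fin 6 → ℝ) (i j : I) : ℝ := (cls (F.bl i) (F.bl j)).elim 0 w

/-- The complex bilinear extension of `gx`. -/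
noncomputable def Gc (w : Fin 6 → ℝ) (X Y : Matrix I I ℂ) : ℂ :=
  -(kk F : ℂ) * ∑ i, ∑ j, (xx F w i j : ℂ) * (X i j * Y j i)

/-- The value of `∑_j [Z, e_j]_{ab} [Z, e_j]_{ba}`. -/
noncomputable def LL (w : Fin 6 → ℝ) (Z : Matrix I I ℂ) (a b : I) : ℂ :=
  1 / (2 * (kk F : ℂ)) *
    ((∑ c, Z a c * Z c a * ((xx F w c b)⁻¹ : ℝ)) + (∑ c, Z c b * Z b c * ((xx F w a c)⁻¹ : ℝ)) -
      (F.η : ℂ) * (Z a (F.bar b) * Z (F.bar b) a * ((xx F w b (F.bar b))⁻¹ : ℝ) +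
        Z (F.bar a) b * Z b (F.bar a) * ((xx F w a (F.bar a))⁻¹ : ℝ)) -
      (F.η : ℂ) * (if a = F.bar b then (∑ c, Z a c * Z c a * ((xx F w c b)⁻¹ : ℝ)) +
        ∑ c, Z c b * Z b c * ((xx F w a c)⁻¹ : ℝ) else 0))

/-- The coefficient of the Ricci form at the entry `i j`. -/
noncomputable def rho (w : Fin 6 → ℝ) (i j : I) : ℝ :=
  1 / 2 + 1 / (4 * kk F) *
    ((∑ b, (xx F w i b)⁻¹ * (xx F w j b)⁻¹ *
        (xx F w i j ^ 2 - xx F w i b ^ 2 - xx F w j b ^ 2)) -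
      F.η * ((xx F w i (F.bar j))⁻¹ * (xx F w j (F.bar j))⁻¹ *
          (xx F w i j ^ 2 - xx F w i (F.bar j) ^ 2 - xx F w j (F.bar j) ^ 2) +
        (xx F w i (F.bar i))⁻¹ * (xx F w j (F.bar i))⁻¹ *
          (xx F w i j ^ 2 - xx F w i (F.bar i) ^ 2 - xx F w j (F.bar i) ^ 2)))

end

/-- **M_ENT** (entrywise descriptions).

PROOF. (1) `(S X)_{ij} = σ_i X_{ī j}`, `(Xᵀ S)_{ij} = X_{j̄ i} σ_{j̄}` (`Finset.sum_ite_eq`; `j = bar l ↔ l = bar j`). So the condition is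
`σ_i X_{ī j} + σ_{j̄} X_{j̄ i} = 0` for all `i, j`; replace `i` by `ī` and multiply by `σ_{ī}`: `X_{ij} = -σ_{ī} σ_{j̄} X_{j̄ ī} = -σ_i σ_j X_{j̄ ī}`
(`σ_{ī} = η σ_i`, `η² = 1`). (2) If `X ∈ fm` let `Y` be its block diagonal part (`Y ∈ fk`: blocks are compatible with `bar`):
`0 = B X Y = -k Re ∑_{bl i = bl j} X_ij X_ji = k ∑_{bl i = bl j} |X_ij|²` (`X_ji = -conj X_ij`), so `Y = 0`. Conversely for `X` off diagonal
and `Y` block diagonal `tr (X Y) = 0`. (3), (4): `X_ij Y_ji` and `conj (X_ij Y_ji) = X_ji Y_ij` (skew-hermitian), so the sum over all `i, j` with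
the symmetric coefficient `x_ij` is real; the classes are disjoint, `comp c X i j * comp c Y j i` is `X i j * Y j i` if the class of
`(i, j)` is `c` (`cls` is symmetric) and `0` otherwise. (5) direct (`cls (bar5 A) (bar5 B) = cls A B = cls B A`: `decide`). (6) `Th` and
skew-hermitian matrices are closed under the commutator: `(XY)_{j̄ ī} = ∑_l X_{j̄ l} Y_{l ī} = ∑_l X_{j̄ l̄} Y_{l̄ ī} = ∑_l σ_l σ_j σ_i σ_l X_{lj} Y_{il}`
`= σ_i σ_j (YX)_{ij}`. -/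
def M_ENT : Prop :=
  ∀ (I : Type) [Fintype I] [DecidableEq I] (F : Frame I), 0 < kk F →
    (∀ X, X ∈ fg F ↔ Xᴴ = -X ∧ Th F X) ∧
    (∀ X, X ∈ fm F ↔ (Xᴴ = -X ∧ Th F X) ∧ Off F X) ∧
    (∀ (w : Fin 6 → ℝ) (X Y : Matrix I I ℂ), Xᴴ = -X → Yᴴ = -Y →
      ((gx F w X Y : ℝ) : ℂ) = Gc F w X Y) ∧
    (∀ X Y : Matrix I I ℂ, Xᴴ = -X → Yᴴ = -Y →
      ((B F X Y : ℝ) : ℂ) = -(kk F : ℂ) * ∑ i, ∑ j, X i j * Y j i) ∧
    (∀ (w : Fin 6 → ℝ) (i j : I), xx F w i j = xx F w j i ∧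
      xx F w (F.bar i) (F.bar j) = xx F w i j) ∧
    (∀ X Y : Matrix I I ℂ, Xᴴ = -X ∧ Th F X → Yᴴ = -Y ∧ Th F Y →
      (⁅X, Y⁆)ᴴ = -⁅X, Y⁆ ∧ Th F ⁅X, Y⁆)

/-- **M_KER** (completeness of an orthonormal basis). USES `M_ENT`.

PROOF. (i) For `X ∈ fm F`: `X = ∑_j g(e_j, X) e_j` (write `X = ∑ c_j e_j` by `span`, and take the product with `e_i`). (ii) Let `W` be
a complex matrix with `Th` and `Off`. Then `W = X + i Y` with `X = (W - Wᴴ)/2`, `Y = -i (W + Wᴴ)/2` in `fm F` (`Wᴴ` has `Th`: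
`(Wᴴ)_{j̄ ī} = conj W_{ī j̄} = -σ_i σ_j conj W_{ji}`), so `W = ∑_j Gc(e_j, W) e_j` (`M_ENT` (3), `Gc` is complex bilinear). (iii) Let
`bl c ≠ bl d`, `W = (1/2)(E_{dc} - σ_c σ_d E_{c̄ d̄})`. It has `Th` and `Off`. `Gc(e_j, W) = -k x_{cd} (e_j)_{cd}`:
`Gc(e_j, E_{dc}) = -k x_{cd} (e_j)_{cd}` and `Gc(e_j, E_{c̄ d̄}) = -k x_{cd} (e_j)_{d̄ c̄} = k x_{cd} σ_c σ_d (e_j)_{cd}` (`Th` for `e_j`). So
`-k x_{cd} ∑_j (e_j)_{cd} (e_j)_{ab} = W_{ab} = (1/2)(δ_{ad} δ_{bc} - σ_c σ_d δ_{a c̄} δ_{b d̄})`; divide. (iv) If `bl c = bl d` both sides are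
zero. -/
def M_KER : Prop :=
  ∀ (I : Type) [Fintype I] [DecidableEq I] (F : Frame I) (w : Fin 6 → ℝ) (κ : Type) [Fintype κ]
    [DecidableEq κ] (e : κ → Matrix I I ℂ), 0 < kk F → (∀ c, 0 < w c) → IsONB F w e →
    ∀ a b c d : I, ∑ j, e j a b * e j c d = -(1 / (2 * (kk F : ℂ))) * ((xx F w c d)⁻¹ : ℝ) *
      ((if a = d ∧ b = c then 1 else 0) -
        ((F.sg c * F.sg d : ℝ) : ℂ) * (if a = F.bar c ∧ b = F.bar d then 1 else 0))

/-- **M_LSUM**. USES `M_ENT`, `M_KER`.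

PROOF. `[Z, e]_{ab} [Z, e]_{ba} = ∑_{c,d} (Z_ac e_cb - e_ac Z_cb)(Z_bd e_da - e_bd Z_da)`. Sum over the basis with `M_KER` (the four terms):
(1) `∑ Z_ac Z_bd K_{cb,da}`, `K_{cb,da} = -(1/2k) κ_da (δ_{ca} δ_{bd} - σ_d σ_a δ_{c d̄} δ_{b ā})`: the first part has `Z_aa = 0`, the second is
`(1/2k) [b = ā] ∑_d κ_da σ_d σ_a Z_{a d̄} Z_{ā d}` and `Z_{ā d} = -η σ_d σ_a Z_{d̄ a}` (`Th`), so with `c = d̄`: `-(η/2k) [b = ā] ∑_c Z_ac Z_ca κ_cb`.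
(2) `-∑ Z_ac Z_da K_{cb,bd}`, `K_{cb,bd} = -(1/2k) κ_bd (δ_cd - σ_b σ_d δ_{c b̄} δ_{b d̄})`: `(1/2k) ∑_c Z_ac Z_ca κ_cb - (η/2k) Z_{a b̄} Z_{b̄ a} κ_{b b̄}`.
(3) `-∑ Z_cb Z_bd K_{ac,da}`, `K_{ac,da} = -(1/2k) κ_da (δ_cd - σ_d σ_a δ_{a d̄} δ_{c ā})`: `(1/2k) ∑_c Z_cb Z_bc κ_ac - (η/2k) Z_{ā b} Z_{b ā} κ_{a ā}`.
(4) `∑ Z_cb Z_da K_{ac,bd}`, `K_{ac,bd} = -(1/2k) κ_bd (δ_ad δ_cb - σ_b σ_d δ_{a b̄} δ_{c d̄})`: the first part has `Z_bb = 0`, the second is, as in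
(1), `-(η/2k) [a = b̄] ∑_c Z_cb Z_bc κ_ac`. (Here `σ_b σ_{b̄} = η`, `κ` is symmetric and invariant under `bar`.) -/
def M_LSUM : Prop :=
  ∀ (I : Type) [Fintype I] [DecidableEq I] (F : Frame I) (w : Fin 6 → ℝ) (κ : Type) [Fintype κ]
    [DecidableEq κ] (e : κ → Matrix I I ℂ), 0 < kk F → (∀ c, 0 < w c) → IsONB F w e →
    ∀ Z : Matrix I I ℂ, Th F Z → Off F Z → ∀ a b : I,
      ∑ j, (⁅Z, e j⁆ : Matrix I I ℂ) a b * (⁅Z, e j⁆ : Matrix I I ℂ) b a = LL F w Z a b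

/-- **M_TT** (the three terms of the Ricci curvature). USES `M_ENT`, `M_KER`, `M_LSUM`.

PROOF. (1) `prm [X, e_j]` is skew-hermitian, and `x_ab = 0` for `bl a = bl b`, so by `M_ENT` (3) the first sum is
`∑_j Gc(prm [X,e_j], prm [X,e_j]) = -k ∑_{ab} x_ab ∑_j [X,e_j]_ab [X,e_j]_ba`; `M_LSUM`. (2) is `M_ENT` (4). (3) Let `Z_ab = x_ab X_ab`; it has
`Th`, `Off`. `g(prm [e_i, e_j], X) = Gc(…) = -k ∑_{ab} [e_i,e_j]_ab Z_ba = -k tr([e_i, e_j] Z) = -k tr(e_j [Z, e_i]) = -k ∑_{ab} (e_j)_ab [Z,e_i]_ba`.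
The sum over `j` of the squares, by `M_KER`: `k² ∑_{ab,cd} K_{ab,cd} [Z,e_i]_ba [Z,e_i]_dc`
`= -(k/2) ∑_{cd} κ_cd ([Z,e_i]_cd [Z,e_i]_dc - σ_c σ_d [Z,e_i]_{d̄ c̄} [Z,e_i]_dc) = -k ∑_{cd} κ_cd [Z,e_i]_cd [Z,e_i]_dc` (`[Z, e_i]` has `Th`, so
`-σ_c σ_d [Z,e_i]_{d̄ c̄} = [Z,e_i]_cd`). Sum over `i` and apply `M_LSUM` to `Z`. -/
def M_TT : Prop :=
  ∀ (I : Type) [Fintype I] [DecidableEq I] (F : Frame I) (w : Fin 6 → ℝ) (κ : Type) [Fintype κ]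
    [DecidableEq κ] (e : κ → Matrix I I ℂ), 0 < kk F → (∀ c, 0 < w c) → IsONB F w e →
    ∀ X ∈ fm F,
      ((∑ j, gx F w (prm F ⁅X, e j⁆) (prm F ⁅X, e j⁆) : ℝ) : ℂ) =
        -(kk F : ℂ) * ∑ a, ∑ b, (xx F w a b : ℂ) * LL F w X a b ∧
      ((B F X X : ℝ) : ℂ) = -(kk F : ℂ) * ∑ a, ∑ b, X a b * X b a ∧
      ((∑ i, ∑ j, gx F w (prm F ⁅e i, e j⁆) X ^ 2 : ℝ) : ℂ) =
        -(kk F : ℂ) * ∑ a, ∑ b, ((xx F w a b)⁻¹ : ℝ) *
          LL F w (Matrix.of fun a b ↦ (xx F w a b : ℂ) * X a b) a b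

/-- **M_RIC** (the Ricci form). USES `M_ENT`, `M_TT`.

PROOF. Reorder the sums of `M_TT` (rename the indices; `x`, `κ` symmetric and invariant under `bar`; `∑_a f(a) = ∑_a f(ā)`):
`∑_{ab} x_ab LL(X)_ab = (1/k) ∑_{ac} X_ac X_ca (∑_b x_ab κ_cb - η x_{a c̄} κ_{c c̄} - η x_{a ā} κ_{c ā})` (each of the three contributions occurs
twice), `∑_{ab} κ_ab LL(Z)_ab = (1/k) ∑_{ac} x_ac² X_ac X_ca (∑_b κ_ab κ_cb - η κ_{a c̄} κ_{c c̄} - η κ_{a ā} κ_{c ā})`, `Z_ab = x_ab X_ab`. So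
`Ric = -T₁/2 + B(X,X)/2 + T₃/4 = ∑_{ac} X_ac X_ca ρ'_ac` with
`ρ'_ac = (1/2)(∑_b x_ab κ_cb - η x_{a c̄} κ_{c c̄} - η x_{a ā} κ_{c ā}) - k/2 - (1/4) x_ac² (∑_b κ_ab κ_cb - η κ_{a c̄} κ_{c c̄} - η κ_{a ā} κ_{c ā})`.
As `X_ac X_ca` is symmetric in `a, c`, `ρ'` may be replaced by `(ρ'_ac + ρ'_ca)/2`, and this is `-k rho a c` for `bl a ≠ bl c`: use
`x_ab κ_cb + x_cb κ_ab = κ_ab κ_cb (x_ab² + x_cb²)` for `b` not in the blocks of `a` and `c`; for `b` in one of these blocks both products on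
the left and the right vanish (`x_ab κ_cb` for `bl b = bl a` is `0`, for `bl b = bl c` `κ_cb = 0`); the same for `b = c̄` and `b = ā`
(`x_{a ā} κ_{c ā} + x_{c ā} κ_{a ā}` etc., `x_{c ā} = x_{a c̄}`, `κ_{c ā} = κ_{a c̄}`, `x_{c c̄} κ_{a c̄}`). For `bl a = bl c` `X_ac = 0`. -/
def M_RIC : Prop :=
  ∀ (I : Type) [Fintype I] [DecidableEq I] (F : Frame I) (w : Fin 6 → ℝ) (κ : Type) [Fintype κ]
    [DecidableEq κ] (e : κ → Matrix I I ℂ), 0 < kk F → (∀ c, 0 < w c) → IsONB F w e →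
    ∀ X ∈ fm F, ((Ric F w e X : ℝ) : ℂ) =
      -(kk F : ℂ) * ∑ i, ∑ j, (rho F w i j : ℂ) * (X i j * X j i)

/-- The blocks have the sizes `p, p, q, q, m`. -/
def Sizes {I : Type} [Fintype I] (F : Frame I) (p q m : ℕ) : Prop :=
  (∀ b : Fin 5, (Finset.univ.filter fun i ↦ F.bl i = b).card = ![p, p, q, q, m] b) ∧
    0 < p ∧ 0 < q ∧ 0 < m ∧ 0 < (p : ℝ) - F.η ∧ 0 < (q : ℝ) - F.η

/-- **M_RHO** (the coefficient of the Ricci form is the Ricci component).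

PROOF. `k = kk F = 2p + 2q + m - 2η` (the number of the indices is the sum over the blocks). A function of `b` that depends only on the block
of `b` is summed with the weights `p, p, q, q, m` (`Finset.sum_fiberwise` or `Finset.sum_comp`). All numbers `xx F w i j` depend only on the
blocks (`bl (bar i) = bar5 (bl i)`). For each of the `20` pairs of blocks `(bl i, bl j)` with `cls ≠ none` (by symmetry in `i, j` and
under `bar` six are enough) both sides are explicit, for example for `(V₁, V₂)` (`c = 0`):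
`rho = 1/2 + (1/4k)((p-η)(w0²-w2²-w1²)/(w2 w1) + (q-η)(w0²-w1²-w3²)/(w1 w3) + m (w0²-w4²-w5²)/(w4 w5))`, and `ric · w0` is the same
(`ric` is computed in `Pool/Agent/Helper8/DH/F_RIC.lean`, also `sum_AF` there); `(V₁, V₁*)` (`c = 2`): `1/2 + (1/4k)(2q (w2²-w0²-w1²)/(w0 w1) + m (w2²-2w4²)/w4²)`;
`(V₁, W)` (`c = 4`): `1/2 + (1/4k)(-(p-η) w2/w4 + q (w4²-w0²-w5²)/(w0 w5) + q (w4²-w1²-w5²)/(w1 w5))`. The terms with `η` are: `b = j̄` and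
`b = ī`; they vanish if `b` is in the block of `i` or of `j` (`0⁻¹ = 0`). -/
def M_RHO : Prop :=
  ∀ (I : Type) [Fintype I] [DecidableEq I] (F : Frame I) (p q m : ℕ) (w : Fin 6 → ℝ),
    Sizes F p q m → (∀ c, 0 < w c) → ∀ (i j : I) (c : Fin 6), cls (F.bl i) (F.bl j) = some c →
      rho F w i j = ric (dF (-F.η) p q m) (AF (-F.η) p q m) w c * w c

/-- **M_ONB** (orthonormal bases exist). USES `M_ENT`.

PROOF. `fm F` is (the carrier of) a real subspace of the finite dimensional space of matrices (`M_ENT` (2): linear conditions), and `gx F w`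
is symmetric, bilinear and positive definite on it: for `X ∈ fm F`, `gx F w X X = k ∑_ij x_ij |X_ij|²` (`M_ENT` (3), `X_ji = -conj X_ij`), which is `> 0`
for `X ≠ 0` (`X` is off diagonal). `LinearMap.BilinForm.exists_orthogonal_basis` (or `InnerProductSpace.Core` and `stdOrthonormalBasis`) gives an
orthogonal basis; normalise. -/
def M_ONB : Prop :=
  ∀ (I : Type) [Fintype I] [DecidableEq I] (F : Frame I) (w : Fin 6 → ℝ), 0 < kk F →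
    (∀ c, 0 < w c) → ∃ (n : ℕ) (e : Fin n → Matrix I I ℂ), IsONB F w e

/-- All six components `𝔪_c` are different from zero. -/
def Full {I : Type} [Fintype I] [DecidableEq I] (F : Frame I) : Prop :=
  ∀ c : Fin 6, ∃ X ∈ fm F, comp F c X = X ∧ X ≠ 0

/-- **M_EIN** (the Einstein equation). USES `M_ENT`, `M_RIC`, `M_RHO`, `M_ONB`.

PROOF. By `M_RIC` and `M_RHO`, for every orthonormal basis and `X ∈ fm F`: `Ric F w e X = ∑_c ric_c · w_c · B(comp c X, comp c X)` (group the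
entries by their class; as in `M_ENT` (3) this is `gx F (fun c ↦ ric_c * w_c) X X`). If all `ric_c = c₀` this is `c₀ gx F w X X`. Conversely take an
orthonormal basis (`M_ONB`) and `X` from `Full` in `𝔪_c`: `ric_c w_c B(X,X) = c₀ w_c B(X,X)` and `B(X,X) > 0`. -/
def M_EIN : Prop :=
  ∀ (I : Type) [Fintype I] [DecidableEq I] (F : Frame I) (p q m : ℕ) (w : Fin 6 → ℝ) (c₀ : ℝ),
    Sizes F p q m → 0 < kk F → Full F → (∀ c, 0 < w c) →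
      (Einstein F c₀ w ↔ ∀ c, ric (dF (-F.η) p q m) (AF (-F.η) p q m) w c = c₀)

/-! ## Kähler metrics -/

/-- **K_INN** (the derivations of a compact matrix Lie algebra with trivial centre are inner).

PROOF. `b(X, Y) = -Re tr(X Y)` is a positive definite symmetric form on `L` (`-tr(X X) = ∑ |X_ij|²`) with `b([Z,X],Y) = -b(X,[Z,Y])`. For an orthonormal
basis `e` of `L` (`L` is a Lie algebra with the commutator; the Lie ring of the matrices is `LieRing.ofAssociativeRing`): the trace of `ad X ∘ ad X` is `∑_i b([X,[X,e_i]], e_i) = -∑_i b([X,e_i],[X,e_i])`. So the Killing form is negative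
semidefinite, and `κ(X,X) = 0` implies `[X, e_i] = 0` for all `i`, so `X` is central and `X = 0`. Therefore `LieAlgebra.IsKilling ℝ L`
(`killingCompl = ⊥`), and the derivations are inner (`Mathlib/Algebra/Lie/Derivation/Killing.lean`). -/
def K_INN : Prop :=
  ∀ (I : Type) [Fintype I] [DecidableEq I] (L : Submodule ℝ (Matrix I I ℂ)),
    (∀ X ∈ L, Xᴴ = -X) → (∀ X ∈ L, ∀ Y ∈ L, ⁅X, Y⁆ ∈ L) →
    (∀ Z ∈ L, (∀ X ∈ L, ⁅Z, X⁆ = 0) → Z = 0) →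
    ∀ D : Matrix I I ℂ → Matrix I I ℂ, (∀ X ∈ L, D X ∈ L) →
      (∀ X ∈ L, ∀ Y ∈ L, D (X + Y) = D X + D Y) → (∀ r : ℝ, ∀ X ∈ L, D (r • X) = r • D X) →
      (∀ X ∈ L, ∀ Y ∈ L, D ⁅X, Y⁆ = ⁅D X, Y⁆ + ⁅X, D Y⁆) → ∃ Z ∈ L, ∀ X ∈ L, D X = ⁅Z, X⁆

/-- The diagonal matrix `i (h, -h, l, -l, 0)` (constant on the blocks). -/
noncomputable def Zd {I : Type} [DecidableEq I] (F : Frame I) (h l : ℝ) : Matrix I I ℂ :=
  Matrix.diagonal fun i ↦ Complex.I * ((![h, -h, l, -l, 0] (F.bl i) : ℝ) : ℂ)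

/-- The block `W` is not `ℂ²` with a symmetric form, in the form which is used: only `0` commutes with the part of `𝔨` in `W`. -/
def GoodW {I : Type} [Fintype I] [DecidableEq I] (F : Frame I) : Prop :=
  ∀ Z ∈ fg F, (∀ i j, Z i j ≠ 0 → F.bl i = 4 ∧ F.bl j = 4) → (∀ X ∈ fk F, ⁅Z, X⁆ = 0) → Z = 0

/-- **K_CEN** (the centralizer of `𝔨`). USES `M_ENT`.

PROOF. Let `Z ∈ fg F` commute with `fk F`. `T₁ = Zd F 1 0`, `T₂ = Zd F 0 1` are in `fk F`. `[T₁, Z]_{ij} = i (t_i - t_j) Z_ij` with `t = (1,-1,0,0,0)` on the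
blocks, so `Z_ij = 0` unless `t_i = t_j`; the same for `T₂`; together: `Z_ij = 0` unless `bl i = bl j`. For `i ≠ j` in `V₁`: `X = E_ij - E_ji - (…)` (the element
`E_ij - E_ji - σσ(E_{j̄ ī} - E_{ī j̄})` of `fk F`) and `i (E_ii - E_{ī ī})`: the latter gives `Z_ij = 0` for `i ≠ j` in `V₁` (the entry `i j` of the commutator
is `± i Z_ij`), the former then gives `Z_ii = Z_jj`. `Z_ii` is imaginary, so `Z = i h` on `V₁`, and `Z_{ī ī} = -Z_ii` gives `-i h` on `V₁*`. The same for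
`V₂`. Now `Z - Zd F h l` is in `fg F`, lives on `W` and commutes with `fk F` (`Zd F h l` does), so it is `0` by `GoodW`. -/
def K_CEN : Prop :=
  ∀ (I : Type) [Fintype I] [DecidableEq I] (F : Frame I), 0 < kk F → GoodW F →
    ∀ Z ∈ fg F, (∀ X ∈ fk F, ⁅Z, X⁆ = 0) → ∃ h l : ℝ, Z = Zd F h l

/-- **K_GW** (the condition on `W`, the components, the sizes). USES `M_ENT`.

PROOF. (1) `W = ℂ^m` with the unit form: `Z` is real skew on `W` (skew-hermitian and skew). `m = 1`: `Z_ww = 0`. `m ≥ 3`: for `w ≠ w'` in `W` choose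
`w''` different from both; the element `X = E_{w' w''} - E_{w'' w'}` of `fk` gives `[Z, X]_{w w''} = Z_{w w'}`, so `Z = 0`. (2) symplectic:
`i (E_ww - E_{w̄ w̄})` gives `Z_ab = 0` unless `a = b` or …: the entry `a b` of the commutator with it is `i Z_ab (s_b - s_a)`, `s = ±1` at `w, w̄`, `0`
elsewhere, so `Z` is diagonal (for `a ≠ b` take `w = a`: `s_a = 1 ≠ s_b`); the element `E_{w w̄} - E_{w̄ w}` (it has `Th` in the symplectic case: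
`-σ_w σ_{w̄} = 1`) gives `Z_ww = Z_{w̄ w̄}`, but `Z_{w̄ w̄} = -Z_ww`. So `Z = 0`. (3) `Full`: for `c` choose `i, j` in the blocks
`(V₁,V₂), (V₁,V₂*), (V₁,V₁*), (V₂,V₂*), (V₁,W), (V₂,W)` and `X = E_ij - E_ji - σ_i σ_j (E_{j̄ ī} - E_{ī j̄})`; it is `≠ 0` if `i ≠ j̄`, or, in the symplectic
case, always for a suitable choice (`i = j̄`: `X = 2(E_ij - E_ji)` since `-σ_i σ_j = 1`). In the orthogonal case for `c = 2` take
`i = (V₁, 0)`, `j = (V₁*, 1)`. (4) sizes and `kk`: count (`Fintype.card_sum`). -/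
def K_GW : Prop :=
  (∀ p q m : ℕ, 2 ≤ p → 2 ≤ q → 1 ≤ m → m ≠ 2 →
    GoodW (FD p q m) ∧ Full (FD p q m) ∧ Sizes (FD p q m) p q m ∧ 0 < kk (FD p q m)) ∧
  ∀ p q r : ℕ, 1 ≤ p → 1 ≤ q → 1 ≤ r →
    GoodW (FC p q r) ∧ Full (FC p q r) ∧ Sizes (FC p q r) p q (2 * r) ∧ 0 < kk (FC p q r)

/-- **K_DER** (the derivation of a Kähler metric). USES `M_ENT`.

PROOF. `D X = ∑_c w_c comp_c (J (prm X))` for `X ∈ fg F`; `prm X ∈ fm F`. `B(D X, Y) = g(J prm X, prm Y)` for `X, Y ∈ fg F` (entries). `D` is skew for `B`: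
`g(J X, Y) = -g(X, J Y)` for `X, Y ∈ fm F` (hermitian and `J² = -1`). `B` is nondegenerate on `fg F` (`B(X, X) > 0`) and ad-invariant,
`B([X,Y],Z) = B(X,[Y,Z])`. Let `X, Y ∈ fg F`; to show `D[X,Y] = [DX,Y] + [X,DY]`. If `X ∈ fk F`: `D[X,Y] = ŵ J [X, prm Y]`
(`prm [X,Y] = [X, prm Y]`) `= ŵ [X, J prm Y] = [X, D Y]` (`J` commutes with `ad X`, and `ŵ = ∑ w_c comp_c` too since `X` is block diagonal), `D X = 0`. The same if `Y ∈ fk F`.
Let `X, Y ∈ fm F`, `Z ∈ fg F`. If `Z ∈ fm F`: `B(D[X,Y],Z) = g(J prm[X,Y], Z) = -g(J prm[Y,Z], X) - g(J prm[Z,X], Y)` (closed)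
`= -B(D[Y,Z],X) - B(D[Z,X],Y) = B([Y,Z],DX) + B([Z,X],DY) = B([DX,Y],Z) + B([X,DY],Z)`. If `Z ∈ fk F`: `B(D[X,Y],Z) = 0` (`D` has values in `𝔪`), and
`B([DX,Y],Z) + B([X,DY],Z) = B(DX,[Y,Z]) + B(X,[DY,Z]) = B(DX,[Y,Z]) - B(X, D[Z,Y]) = B(DX,[Y,Z]) + B(DX,[Z,Y]) = 0` (`[DY,Z] = -[Z,DY] = -D[Z,Y]`). By
linearity it holds for all `Z`, so for `B` nondegenerate we are done. -/
def K_DER : Prop :=
  ∀ (I : Type) [Fintype I] [DecidableEq I] (F : Frame I) (w : Fin 6 → ℝ)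
    (J : Matrix I I ℂ →ₗ[ℝ] Matrix I I ℂ), 0 < kk F → IsComplexStructure F J →
    (∀ X ∈ fm F, ∀ Y ∈ fm F, gx F w (J X) (J Y) = gx F w X Y) →
    (∀ X ∈ fm F, ∀ Y ∈ fm F, ∀ Z ∈ fm F, gx F w (J (prm F ⁅X, Y⁆)) Z +
      gx F w (J (prm F ⁅Y, Z⁆)) X + gx F w (J (prm F ⁅Z, X⁆)) Y = 0) →
    let D : Matrix I I ℂ → Matrix I I ℂ := fun X ↦ ∑ c, w c • comp F c (J (prm F X))
    (∀ X ∈ fg F, D X ∈ fg F) ∧ (∀ X ∈ fk F, D X = 0) ∧
      ∀ X ∈ fg F, ∀ Y ∈ fg F, D ⁅X, Y⁆ = ⁅D X, Y⁆ + ⁅X, D Y⁆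

/-- **K_KC** (Kähler metrics). USES `M_ENT`, `K_INN`, `K_CEN`, `K_DER`.

PROOF. `fg F` is (the carrier of) a Lie subalgebra (`M_ENT` (1), (6)) of skew-hermitian matrices. Its centre is trivial: by `K_CEN` a central `Z` is
`Zd F h l`; for `X` in `𝔪_4` (`Full`), `X_ij ≠ 0`, `(bl i, bl j)` of the class `4`: `[Z, X]_ij = ± i h X_ij`, so `h = 0`; with `𝔪_5`: `l = 0`. By `K_DER` and `K_INN`
`D = ad Z` with `Z ∈ fg F`, and `[Z, X] = D X = 0` for `X ∈ fk F`, so `Z = Zd F h l` (`K_CEN`). For `X ∈ 𝔪_c` (`Full`): `[Z, X]` has entries `i (z_i - z_j) X_ij`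
(`z = (h,-h,l,-l,0)` on the blocks), so it is in `𝔪_c`, and `∑_d w_d comp_d (J X) = D X = [Z,X]` gives `J X = w_c⁻¹ [Z, X]` (`J X ∈ fm F`, compare the components; for
`d ≠ c` `comp_d (J X) = 0`). `[Z, X]` is in `fm F ∩ 𝔪_c` as well, so `-X = J J X = w_c⁻² [Z,[Z,X]]`, whose entry is `-w_c⁻² (z_i - z_j)² X_ij`: with `X_ij ≠ 0`
`w_c = |z_i - z_j|`. This is `|h - l|, |h + l|, 2|h|, 2|l|, |h|, |l|` for `c = 0, …, 5` (`(i, j)` in `(V₁,V₂)` or `(V₁*,V₂*)` or transposed, etc.). -/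
def K_KC : Prop :=
  ∀ (I : Type) [Fintype I] [DecidableEq I] (F : Frame I) (w : Fin 6 → ℝ), 0 < kk F → GoodW F →
    Full F → (∀ c, 0 < w c) → Kaehler F w → KC w

/-- The conclusion at the level of matrices: there is a nonempty finite set of non-Kähler invariant metrics with
`Ric = g/2`; it has at least four elements if the invariant metrics with `Ric = g/2` are finitely many and all nondegenerate. -/
def ConclM {I : Type} [Fintype I] [DecidableEq I] (F : Frame I) (p q m : ℕ) : Prop :=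
  ∃ Y : Finset (Fin 6 → ℝ), Y.Nonempty ∧
    (∀ w ∈ Y, (∀ c, 0 < w c) ∧ Einstein F (1 / 2) w ∧ ¬ Kaehler F w) ∧
    ({w : Fin 6 → ℝ | (∀ c, 0 < w c) ∧ Einstein F (1 / 2) w}.Finite →
      (∀ w : Fin 6 → ℝ, (∀ c, 0 < w c) → Einstein F (1 / 2) w →
        NonDegC (dF (-F.η) p q m) (AF (-F.η) p q m) w) → 4 ≤ Y.card)

/-- **M_FIN** (the theorem at the level of matrices). USES `F_ALL` (project DH), `M_EIN`, `K_GW`, `K_KC`.

PROOF. By `M_EIN` and `K_GW` `Einstein F (1/2) w ↔ ∀ c, ric … w c = 1/2`, and `Kaehler F w → KC w` by `K_KC`, so the two parts of `Concl` give the statement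
(case distinction: if the set is finite and all its elements are nondegenerate use the second part with `Z = toFinset`, otherwise the first
part and a singleton; see `Pool/Agent/Results/MP_06d934_gt/AllSizes.lean`). `(FD p q m).η = 1`, `(FC p q r).η = -1`; casts of `2 * r`. -/
def M_FIN : Prop :=
  (∀ p q m : ℕ, 2 ≤ p → 2 ≤ q → 1 ≤ m → m ≠ 2 → ConclM (FD p q m) p q m) ∧
  ∀ p q r : ℕ, 1 ≤ p → 1 ≤ q → 1 ≤ r → ConclM (FC p q r) p q (2 * r)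

/-- **M_LNK** (the Ricci form in terms of the Ricci components). USES `M_ENT`, `M_RIC`, `M_RHO`.

PROOF. As in `M_EIN`. -/
def M_LNK : Prop :=
  ∀ (I : Type) [Fintype I] [DecidableEq I] (F : Frame I) (p q m : ℕ) (w : Fin 6 → ℝ),
    Sizes F p q m → 0 < kk F → (∀ c, 0 < w c) → ∀ (κ : Type) [Fintype κ] [DecidableEq κ]
      (e : κ → Matrix I I ℂ), IsONB F w e → ∀ X ∈ fm F,
        Ric F w e X = gx F (fun c ↦ ric (dF (-F.η) p q m) (AF (-F.η) p q m) w c * w c) X X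

end Pool.Agent.Helper58.DM
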