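import Pool.Agent.Helper58.DH.Main
import Pool.Agent.Helper86.DM.M_ENT
import Pool.Agent.Helper19.DM.M_KER
import Pool.Agent.Helper96.DM.M_LSUM
import Pool.Agent.Helper88.DM.M_TT
import Pool.Agent.Helper97.DM.M_RIC
import Pool.Agent.Helper3.DM.M_RHO
import Pool.Agent.Helper49.DM.M_ONB
import Pool.Agent.Helper83.DM.M_EIN
import Pool.Agent.Helper2.DM.K_INN
import Pool.Agent.Helper62.DM.K_CEN
import Pool.Agent.Helper13.DM.K_GW
import Pool.Agent.Helper30.DM.K_DER
import Pool.Agent.Helper14.DM.K_KC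
import Pool.Agent.Helper12.DM.M_FIN
import Pool.Agent.Helper82.DM.M_LNK

/-!
# Project DM (MP_06d934_gt): assembly

The theorem for the families B, C, D at the level of matrices, without hypotheses.
-/

set_option autoImplicit false

namespace Pool.Agent.Helper58.DM

theorem m_tt : M_TT :=
  _root_.Pool.Agent.Helper88.DM.m_tt _root_.Pool.Agent.Helper86.DM.m_ent
    (_root_.Pool.Agent.Helper19.DM.m_ker _root_.Pool.Agent.Helper86.DM.m_ent)
    (_root_.Pool.Agent.Helper96.DM.m_lsum _root_.Pool.Agent.Helper86.DM.m_ent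
      (_root_.Pool.Agent.Helper19.DM.m_ker _root_.Pool.Agent.Helper86.DM.m_ent))

theorem m_ric : M_RIC :=
  _root_.Pool.Agent.Helper97.DM.m_ric _root_.Pool.Agent.Helper86.DM.m_ent m_tt

theorem m_ein : M_EIN :=
  _root_.Pool.Agent.Helper83.DM.m_ein _root_.Pool.Agent.Helper86.DM.m_ent m_ric
    _root_.Pool.Agent.Helper3.DM.m_rho
    (_root_.Pool.Agent.Helper49.DM.m_onb _root_.Pool.Agent.Helper86.DM.m_ent)

theorem k_gw : K_GW := _root_.Pool.Agent.Helper13.DM.k_gw _root_.Pool.Agent.Helper86.DM.m_ent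

theorem k_kc : K_KC :=
  _root_.Pool.Agent.Helper14.DM.k_kc _root_.Pool.Agent.Helper86.DM.m_ent
    _root_.Pool.Agent.Helper2.DM.k_inn
    (_root_.Pool.Agent.Helper62.DM.k_cen _root_.Pool.Agent.Helper86.DM.m_ent)
    (_root_.Pool.Agent.Helper30.DM.k_der _root_.Pool.Agent.Helper86.DM.m_ent)

/-- The theorem for all sizes, at the level of matrices. -/
theorem m_fin : M_FIN :=
  _root_.Pool.Agent.Helper12.DM.m_fin _root_.Pool.Agent.Helper58.DH.f_all m_ein k_gw k_kc

/-- The Ricci form in terms of the Ricci components. -/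
theorem m_lnk : M_LNK :=
  _root_.Pool.Agent.Helper82.DM.m_lnk _root_.Pool.Agent.Helper86.DM.m_ent m_ric
    _root_.Pool.Agent.Helper3.DM.m_rho

end Pool.Agent.Helper58.DM
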